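import Pool.Agent.Y223.G.Stm9
import Pool.Agent.Y223.G.WBase

/-!
# The monomials in the algebra with a second grading (`S_R2M` and `S_RES2`)
-/

set_option autoImplicit false

namespace Pool.Agent.Y153.H

open Pool.Agent.Y223.G

section

variable {k K K₂ : Type} [CommRing k] [Field K] [Field K₂] [Algebra k K] [Algebra k K₂]
  {ε : LP K →ₐ[k] K₂} {R : Subalgebra k (LP K)} {π : K}

/-- the monomials -/
def Mo (ε : LP K →ₐ[k] K₂) (R : Subalgebra k (LP K)) (π : K) : Set (LP K₂) :=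
  {g | ∃ (d b : ℤ) (a : K), hm d (a * π ^ (-b)) ∈ R ∧ g = hm d (ε (hm b a))}

lemma mo_mul (hπ : π ≠ 0) {f g : LP K₂} (hf : f ∈ Mo ε R π) (hg : g ∈ Mo ε R π) :
    f * g ∈ Mo ε R π := by
  obtain ⟨d, b, a, h, rfl⟩ := hf
  obtain ⟨d', b', a', h', rfl⟩ := hg
  refine ⟨d + d', b + b', a * a', ?_, ?_⟩
  · have h1 := R.mul_mem h h'
    rw [hm_mul] at h1
    have e : a * π ^ (-b) * (a' * π ^ (-b')) = a * a' * π ^ (-(b + b')) := by
      rw [neg_add, zpow_add₀ hπ]
      ring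
    rwa [e] at h1
  · rw [hm_mul, ← map_mul, hm_mul]

lemma mo_zero {d : ℤ} {a : K} (h : hm d a ∈ R) : hm d (ε (hm 0 a)) ∈ Mo ε R π :=
  ⟨d, 0, a, by rwa [neg_zero, zpow_zero, mul_one], rfl⟩

/-- the span of the monomials is closed under multiplication -/
lemma span_mul (hπ : π ≠ 0) {f g : LP K₂} (hf : f ∈ Submodule.span k (Mo ε R π))
    (hg : g ∈ Submodule.span k (Mo ε R π)) : f * g ∈ Submodule.span k (Mo ε R π) := by
  set M := Submodule.span k (Mo ε R π) with hM
  induction hf using Submodule.span_induction with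
  | mem x hx =>
    induction hg using Submodule.span_induction with
    | mem y hy => exact Submodule.subset_span (mo_mul hπ hx hy)
    | zero => rw [mul_zero]; exact M.zero_mem
    | add y z _ _ hy hz => rw [mul_add]; exact M.add_mem hy hz
    | smul r y _ hy => rw [mul_smul_comm]; exact M.smul_mem r hy
  | zero => rw [zero_mul]; exact M.zero_mem
  | add x y _ _ hx hy => rw [add_mul]; exact M.add_mem hx hy
  | smul r x _ hx => rw [smul_mul_assoc]; exact M.smul_mem r hx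

lemma R2_le (hπ : π ≠ 0) {f : LP K₂} (hf : f ∈ R2 ε R π) : f ∈ Submodule.span k (Mo ε R π) := by
  have h1 : (hm 0 (1 : K) : LP K) ∈ R := by
    rw [hm_one]
    exact R.one_mem
  unfold R2 at hf
  induction hf using Algebra.adjoin_induction with
  | mem x hx =>
    rcases hx with ⟨d, a, h, rfl⟩ | hx
    · exact Submodule.subset_span (mo_zero h)
    · rcases hx with rfl | hx
      · refine Submodule.subset_span ⟨0, 1, π, ?_, rfl⟩
        rwa [zpow_neg, zpow_one, mul_inv_cancel₀ hπ]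
      · rw [Set.mem_singleton_iff.1 hx]
        refine Submodule.subset_span ⟨0, -1, π⁻¹, ?_, rfl⟩
        rwa [neg_neg, zpow_one, inv_mul_cancel₀ hπ]
  | algebraMap r =>
    refine Submodule.subset_span ⟨0, 0, algebraMap k K r, ?_, ?_⟩
    · rw [neg_zero, zpow_zero, mul_one, ← algebraMap_LP]
      exact R.algebraMap_mem r
    · rw [← algebraMap_LP (K := K), ε.commutes, ← algebraMap_LP]
  | add x y _ _ hx hy => exact Submodule.add_mem _ hx hy
  | mul x y _ _ hx hy => exact span_mul hπ hx hy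

/-- the powers of the unit -/
lemma v_mem (b : ℤ) : hm 0 (ε (hm b (π ^ b))) ∈ R2 ε R π := by
  have hv : hm 0 (ε (hm 1 π)) ∈ R2 ε R π := Algebra.subset_adjoin (Or.inr (Or.inl rfl))
  have hv' : hm 0 (ε (hm (-1) π⁻¹)) ∈ R2 ε R π := Algebra.subset_adjoin (Or.inr (Or.inr rfl))
  rcases le_or_gt 0 b with h | h
  · obtain ⟨n, rfl⟩ := Int.eq_ofNat_of_zero_le h
    have h1 := (R2 ε R π).pow_mem hv n
    rw [hm_pow, mul_zero, ← map_pow, hm_pow, mul_one] at h1
    rwa [zpow_natCast]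
  · obtain ⟨n, hn⟩ := Int.eq_ofNat_of_zero_le (a := -b) (by omega)
    have hb : b = -(n : ℤ) := by
      have : -b = (n : ℤ) := hn
      omega
    subst hb
    have h1 := (R2 ε R π).pow_mem hv' n
    rw [hm_pow, mul_zero, ← map_pow, hm_pow, inv_pow] at h1
    rw [zpow_neg, zpow_natCast]
    have e : -(n : ℤ) = n * -1 := by ring
    rwa [e]

lemma mo_mem (hπ : π ≠ 0) {f : LP K₂} (hf : f ∈ Mo ε R π) : f ∈ R2 ε R π := by
  obtain ⟨d, b, a, h, rfl⟩ := hf
  have h1 : hm d (ε (hm 0 (a * π ^ (-b)))) ∈ R2 ε R π :=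
    Algebra.subset_adjoin (Or.inl ⟨d, _, h, rfl⟩)
  have h2 := (R2 ε R π).mul_mem h1 (v_mem (ε := ε) (R := R) (π := π) b)
  rw [hm_mul, ← map_mul, hm_mul, add_zero, zero_add, mul_assoc, ← zpow_add₀ hπ, neg_add_cancel,
    zpow_zero, mul_one] at h2
  exact h2

/-- the coefficients of the elements of the span -/
lemma span_coeff {f : LP K₂} (hf : f ∈ Submodule.span k (Mo ε R π)) (d : ℤ) :
    ∃ w : LP K, f.coeff d = ε w ∧ ∀ b, hm d (w.coeff b * π ^ (-b)) ∈ R := by
  induction hf using Submodule.span_induction with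
  | mem x hx =>
    obtain ⟨e, b, a, h, rfl⟩ := hx
    by_cases hed : e = d
    · subst hed
      refine ⟨hm b a, coeff_hm_same _ _, fun b' => ?_⟩
      rw [coeff_hm]
      split_ifs with hb
      · rwa [← hb]
      · rw [zero_mul, hm_zero]
        exact R.zero_mem
    · refine ⟨0, ?_, fun b' => ?_⟩
      · rw [coeff_hm, if_neg hed, map_zero]
      · rw [AddMonoidAlgebra.coeff_zero, Finsupp.zero_apply, zero_mul, hm_zero]
        exact R.zero_mem
  | zero =>
    refine ⟨0, ?_, fun b' => ?_⟩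
    · rw [AddMonoidAlgebra.coeff_zero, Finsupp.zero_apply, map_zero]
    · rw [AddMonoidAlgebra.coeff_zero, Finsupp.zero_apply, zero_mul, hm_zero]
      exact R.zero_mem
  | add x y _ _ hx hy =>
    obtain ⟨w, hw, hw'⟩ := hx
    obtain ⟨u, hu, hu'⟩ := hy
    refine ⟨w + u, ?_, fun b => ?_⟩
    · rw [AddMonoidAlgebra.coeff_add, Finsupp.add_apply, hw, hu, map_add]
    · rw [AddMonoidAlgebra.coeff_add, Finsupp.add_apply, add_mul, hm_add]
      exact R.add_mem (hw' b) (hu' b)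
  | smul r x _ hx =>
    obtain ⟨w, hw, hw'⟩ := hx
    refine ⟨r • w, ?_, fun b => ?_⟩
    · rw [AddMonoidAlgebra.coeff_smul, Finsupp.smul_apply, hw, map_smul]
    · rw [AddMonoidAlgebra.coeff_smul, Finsupp.smul_apply, smul_mul_assoc, ← smul_hm]
      exact R.smul_mem (hw' b) r

end

theorem t_R2M : S_R2M := by
  intro k K K₂ _ _ _ _ _ ε hε R hR π hπ
  refine ⟨fun f hf => ?_, fun d b a => ⟨fun h => ?_, fun h => mo_mem hπ ⟨d, b, a, h, rfl⟩⟩⟩
  · refine Submodule.span_mono ?_ (R2_le hπ hf)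
    intro g hg
    refine ⟨mo_mem hπ hg, ?_⟩
    obtain ⟨d, b, a, -, rfl⟩ := hg
    exact ⟨d, b, a, rfl⟩
  · obtain ⟨w, hw, hw'⟩ := span_coeff (R2_le hπ h) d
    rw [coeff_hm_same] at hw
    have h1 := hw' b
    rw [← hε.inj hw, coeff_hm_same] at h1
    exact h1

theorem t_RES2 : S_RES2 := by
  intro k Y Y₂ K K₂ G _ _ _ _ _ _ _ _ _ _ ι ι₂ εY ε ρ ρ₂ hE hfix R hR π hπ
  classical
  have hmap : ∀ (d : ℤ) (y : Y₂), AddMonoidAlgebra.mapAlgHom (R := k) ℤ ι₂ (hm d y) =
      hm d (ι₂ y) := fun d y => AddMonoidAlgebra.mapAlgHom_single _ _ _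
  have hmem : ∀ (d b : ℤ) (y : Y), hm d (εY (hm b y)) ∈ res ι₂ (R2 ε R π) ↔
      hm d (ι y * π ^ (-b)) ∈ R := by
    intro d b y
    rw [← (t_R2M k K K₂ ε hE.eK R hR π hπ).2 d b (ι y), ← hE.com b y, ← hmap]
    rfl
  refine ⟨fun f hf => ?_, hmem⟩
  have hF : AddMonoidAlgebra.mapAlgHom (R := k) ℤ ι₂ f ∈ R2 ε R π := hf
  have hc : ∀ d : ℤ, ∃ W : LP Y, f.coeff d = εY W ∧
      ∀ b, hm d (εY (hm b (W.coeff b))) ∈ res ι₂ (R2 ε R π) := by
    intro d
    obtain ⟨w, hw, hw'⟩ := span_coeff (R2_le hπ hF) d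
    rw [AddMonoidAlgebra.coeff_mapAlgHom] at hw
    -- the coefficients are invariant
    have hinv : ∀ g, tl (ρ g) w = w := by
      intro g
      have h1 : ρ₂ g (ι₂ (f.coeff d)) = ι₂ (f.coeff d) := (hE.fix _).2 ⟨_, rfl⟩ g
      rw [hw, hE.act] at h1
      exact hE.eK.inj h1
    have hcf : ∀ b : ℤ, ∃ y : Y, ι y = w.coeff b := by
      intro b
      refine (hfix _).1 fun g => ?_
      have h1 : (tl (ρ g) w).coeff b = ρ g (w.coeff b) :=
        AddMonoidAlgebra.coeff_mapAlgHom _ _ _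
      rw [hinv g] at h1
      exact h1.symm
    choose y hy using hcf
    set W : LP Y := ∑ b ∈ w.coeff.support, hm b (y b) with hW
    have hWc : ∀ b, ι (W.coeff b) = w.coeff b := by
      intro b
      rw [hW, coeff_sum_hm]
      split_ifs with hb
      · exact hy b
      · rw [map_zero]
        exact (Finsupp.notMem_support_iff.1 hb).symm
    refine ⟨W, ?_, fun b => ?_⟩
    · apply ι₂.injective
      change ι₂ (f.coeff d) = ι₂ (εY W)
      rw [hw, hW, map_sum, map_sum]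
      conv_lhs => rw [eq_sum_hm w, map_sum]
      refine Finset.sum_congr rfl fun b _ => ?_
      rw [hE.com, hy]
    · rw [hmem, hWc]
      exact hw' b
  choose W hW1 hW2 using hc
  have hf2 : f = ∑ d ∈ f.coeff.support, ∑ b ∈ (W d).coeff.support,
      hm d (εY (hm b ((W d).coeff b))) := by
    conv_lhs => rw [eq_sum_hm f]
    refine Finset.sum_congr rfl fun d _ => ?_
    rw [hW1 d]
    conv_lhs => rw [eq_sum_hm (W d), map_sum]
    exact map_sum (AddMonoidAlgebra.singleAddHom d : Y₂ →+ LP Y₂) _ _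
  rw [hf2]
  refine Submodule.sum_mem _ fun d _ => Submodule.sum_mem _ fun b _ => ?_
  exact Submodule.subset_span ⟨hW2 d b, d, b, _, rfl⟩

end Pool.Agent.Y153.H
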